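import Pool.Agent.W845.DH.Stm

/-!
MP_ee1662_pr: selection of a sparse family of disjoint pairs.
-/

namespace Pool.Agent.W370.DH

open Pool.Agent.W845.DH Finset

/-- used vertices -/
def used {n : ℕ} (Z : Finset (Fin n)) (M : Finset (Fin n × Fin n)) : Finset (Fin n) :=
  Z ∪ (M.image Prod.fst ∪ M.image Prod.snd)

/-- available pairs -/
def avail {n : ℕ} (U : Finset (Fin n)) : Finset (Fin n × Fin n) :=
  univ.filter (fun e => e.1 ≠ e.2 ∧ e.1 ∉ U ∧ e.2 ∉ U)

/-- the potential -/
noncomputable def pot {n : ℕ} {I : Type} [Fintype I] (E : I → Finset (Fin n × Fin n))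
    (M : Finset (Fin n × Fin n)) : ℝ := ∑ i, (1 / 2 : ℝ) ^ (M ∩ E i).card

theorem used_card {n : ℕ} (Z : Finset (Fin n)) (M : Finset (Fin n × Fin n)) :
    (used Z M).card ≤ Z.card + 2 * M.card := by
  unfold used
  have h1 := Finset.card_union_le Z (M.image Prod.fst ∪ M.image Prod.snd)
  have h2 := Finset.card_union_le (M.image Prod.fst) (M.image Prod.snd)
  have h3 : (M.image Prod.fst).card ≤ M.card := Finset.card_image_le
  have h4 : (M.image Prod.snd).card ≤ M.card := Finset.card_image_le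
  omega

theorem avail_card {n : ℕ} (U : Finset (Fin n)) : (avail U).card ≤ n ^ 2 := by
  refine (Finset.card_le_univ _).trans (le_of_eq ?_)
  rw [Fintype.card_prod, Fintype.card_fin]
  ring

theorem inter_card {n : ℕ} (U : Finset (Fin n)) (F : Finset (Fin n × Fin n))
    (hF : ∀ e ∈ F, e.1 ≠ e.2) : F.card ≤ (F ∩ avail U).card + 2 * (U.card * n) := by
  have hsub : F ⊆ (F ∩ avail U) ∪ (U ×ˢ univ ∪ univ ×ˢ U) := by
    intro e he
    rw [mem_union, mem_union, mem_inter, mem_product, mem_product]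
    by_cases h1 : e.1 ∈ U
    · exact Or.inr (Or.inl ⟨h1, mem_univ _⟩)
    · by_cases h2 : e.2 ∈ U
      · exact Or.inr (Or.inr ⟨mem_univ _, h2⟩)
      · left
        refine ⟨he, ?_⟩
        unfold avail
        rw [mem_filter]
        exact ⟨mem_univ _, hF e he, h1, h2⟩
  have h1 := Finset.card_le_card hsub
  have h2 := Finset.card_union_le (F ∩ avail U) (U ×ˢ univ ∪ univ ×ˢ U)
  have h3 := Finset.card_union_le (U ×ˢ (univ : Finset (Fin n))) ((univ : Finset (Fin n)) ×ˢ U)
  rw [Finset.card_product, Finset.card_product, Finset.card_univ, Fintype.card_fin] at h3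
  have h4 : n * U.card = U.card * n := Nat.mul_comm _ _
  omega

theorem pot_insert {n : ℕ} {I : Type} [Fintype I] (E : I → Finset (Fin n × Fin n))
    (M : Finset (Fin n × Fin n)) (e : Fin n × Fin n) (he : e ∉ M) (i : I) :
    (1 / 2 : ℝ) ^ (insert e M ∩ E i).card =
      (1 / 2 : ℝ) ^ (M ∩ E i).card * (1 - (if e ∈ E i then 1 / 2 else 0)) := by
  by_cases h : e ∈ E i
  · rw [Finset.insert_inter_of_mem h, Finset.card_insert_of_notMem
      (fun h' => he (Finset.mem_inter.1 h').1), if_pos h, pow_succ]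
    norm_num
  · rw [Finset.insert_inter_of_notMem h, if_neg h]
    ring

theorem step {n : ℕ} {I : Type} [Fintype I] [Nonempty I] (E : I → Finset (Fin n × Fin n))
    (Z : Finset (Fin n)) (M : Finset (Fin n × Fin n)) (γ : ℝ) (hγ : 0 < γ)
    (hn : 0 < n) (hE : ∀ i, γ * (n : ℝ) ^ 2 ≤ ((E i).card : ℝ)) (hE' : ∀ i, ∀ e ∈ E i, e.1 ≠ e.2)
    (hU : ((used Z M).card : ℝ) ≤ γ / 4 * n) (hM : VDs M) (hMZ : ∀ e ∈ M, e.1 ∉ Z ∧ e.2 ∉ Z) :
    ∃ M' : Finset (Fin n × Fin n), M'.card = M.card + 1 ∧ VDs M' ∧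
      (∀ e ∈ M', e.1 ∉ Z ∧ e.2 ∉ Z) ∧ pot E M' ≤ pot E M * (1 - γ / 4) := by
  have hn' : (0 : ℝ) < n := by exact_mod_cast hn
  have hint : ∀ i, γ / 2 * (n : ℝ) ^ 2 ≤ ((E i ∩ avail (used Z M)).card : ℝ) := by
    intro i
    have h1 := inter_card (used Z M) (E i) (hE' i)
    have h2 : ((E i).card : ℝ) ≤ ((E i ∩ avail (used Z M)).card : ℝ) +
        2 * (((used Z M).card : ℝ) * n) := by exact_mod_cast h1
    have h3 := hE i
    have h4 : ((used Z M).card : ℝ) * n ≤ γ / 4 * n * n := by
      exact mul_le_mul_of_nonneg_right hU hn'.le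
    nlinarith
  have hav : ((avail (used Z M)).card : ℝ) ≤ (n : ℝ) ^ 2 := by
    exact_mod_cast avail_card (used Z M)
  have hne : (avail (used Z M)).Nonempty := by
    obtain ⟨i⟩ := (inferInstance : Nonempty I)
    have h1 := hint i
    have h2 : (0 : ℝ) < γ / 2 * (n : ℝ) ^ 2 := by positivity
    have h3 : 0 < (E i ∩ avail (used Z M)).card := by
      have : (0 : ℝ) < ((E i ∩ avail (used Z M)).card : ℝ) := by linarith
      exact_mod_cast this
    obtain ⟨e, he⟩ := Finset.card_pos.1 h3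
    exact ⟨e, (Finset.mem_inter.1 he).2⟩
  have hnotM : ∀ e ∈ avail (used Z M), e ∉ M := by
    intro e he heM
    unfold avail at he
    rw [mem_filter] at he
    apply he.2.2.1
    unfold used
    rw [mem_union, mem_union]
    exact Or.inr (Or.inl (Finset.mem_image_of_mem _ heM))
  have hsum : ∑ e ∈ avail (used Z M), pot E (insert e M) ≤
      ∑ _e ∈ avail (used Z M), pot E M * (1 - γ / 4) := by
    have h1 : ∑ e ∈ avail (used Z M), pot E (insert e M) =
        ∑ i, (1 / 2 : ℝ) ^ (M ∩ E i).card *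
          (((avail (used Z M)).card : ℝ) - ((E i ∩ avail (used Z M)).card : ℝ) / 2) := by
      unfold pot
      rw [Finset.sum_comm]
      apply Finset.sum_congr rfl
      intro i _
      rw [Finset.sum_congr rfl (fun e he => pot_insert E M e (hnotM e he) i), ← Finset.mul_sum]
      congr 1
      rw [Finset.sum_sub_distrib, Finset.sum_const, nsmul_eq_mul, mul_one, ← Finset.sum_filter,
        Finset.sum_const, nsmul_eq_mul, Finset.filter_mem_eq_inter, Finset.inter_comm]
      ring
    rw [h1, Finset.sum_const, nsmul_eq_mul]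
    unfold pot
    rw [Finset.sum_mul, Finset.mul_sum]
    apply Finset.sum_le_sum
    intro i _
    have h2 : (0 : ℝ) ≤ (1 / 2 : ℝ) ^ (M ∩ E i).card := by positivity
    have h3 : ((avail (used Z M)).card : ℝ) - ((E i ∩ avail (used Z M)).card : ℝ) / 2 ≤
        ((avail (used Z M)).card : ℝ) * (1 - γ / 4) := by
      have h4 := hint i
      nlinarith
    calc _ ≤ (1 / 2 : ℝ) ^ (M ∩ E i).card * (((avail (used Z M)).card : ℝ) * (1 - γ / 4)) :=
          mul_le_mul_of_nonneg_left h3 h2
      _ = _ := by ring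
  obtain ⟨e, he, hle⟩ := Finset.exists_le_of_sum_le hne hsum
  have heM := hnotM e he
  have heA : e.1 ≠ e.2 ∧ e.1 ∉ used Z M ∧ e.2 ∉ used Z M := by
    unfold avail at he
    exact (mem_filter.1 he).2
  have hfst : ∀ f ∈ M, f.1 ∈ used Z M := by
    intro f hf
    unfold used
    rw [mem_union, mem_union]
    exact Or.inr (Or.inl (Finset.mem_image_of_mem _ hf))
  have hsnd : ∀ f ∈ M, f.2 ∈ used Z M := by
    intro f hf
    unfold used
    rw [mem_union, mem_union]
    exact Or.inr (Or.inr (Finset.mem_image_of_mem _ hf))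
  refine ⟨insert e M, Finset.card_insert_of_notMem heM, ⟨?_, ?_⟩, ?_, hle⟩
  · intro f hf
    rcases mem_insert.1 hf with rfl | hf
    · exact heA.1
    · exact hM.1 f hf
  · intro f hf g hg hfg
    rcases mem_insert.1 hf with hfe | hf'
    · rcases mem_insert.1 hg with hge | hg'
      · exact absurd (hfe.trans hge.symm) hfg
      · rw [hfe]
        refine ⟨?_, ?_, ?_, ?_⟩
        · intro h; exact heA.2.1 (h ▸ hfst g hg')
        · intro h; exact heA.2.1 (h ▸ hsnd g hg')
        · intro h; exact heA.2.2 (h ▸ hfst g hg')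
        · intro h; exact heA.2.2 (h ▸ hsnd g hg')
    · rcases mem_insert.1 hg with hge | hg'
      · rw [hge]
        refine ⟨?_, ?_, ?_, ?_⟩
        · intro h; exact heA.2.1 (h ▸ hfst f hf')
        · intro h; exact heA.2.2 (h ▸ hfst f hf')
        · intro h; exact heA.2.1 (h ▸ hsnd f hf')
        · intro h; exact heA.2.2 (h ▸ hsnd f hf')
      · exact hM.2 f hf' g hg' hfg
  · intro f hf
    rcases mem_insert.1 hf with rfl | hf
    · constructor
      · intro h
        exact heA.2.1 (by unfold used; exact mem_union_left _ h)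
      · intro h
        exact heA.2.2 (by unfold used; exact mem_union_left _ h)
    · exact hMZ f hf

theorem build {n : ℕ} {I : Type} [Fintype I] [Nonempty I] (E : I → Finset (Fin n × Fin n))
    (Z : Finset (Fin n)) (γ α : ℝ) (hγ : 0 < γ) (hγ1 : γ ≤ 1) (hα2 : α ≤ γ / 16)
    (hn : 0 < n) (hE : ∀ i, γ * (n : ℝ) ^ 2 ≤ ((E i).card : ℝ)) (hE' : ∀ i, ∀ e ∈ E i, e.1 ≠ e.2)
    (hZ : (Z.card : ℝ) ≤ γ / 8 * n) (t : ℕ) (ht : (t : ℝ) ≤ α * n) :
    ∃ M : Finset (Fin n × Fin n), M.card = t ∧ VDs M ∧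
      (∀ e ∈ M, e.1 ∉ Z ∧ e.2 ∉ Z) ∧ pot E M ≤ (Fintype.card I : ℝ) * (1 - γ / 4) ^ t := by
  have hn' : (0 : ℝ) < n := by exact_mod_cast hn
  induction t with
  | zero =>
    refine ⟨∅, Finset.card_empty, ⟨?_, ?_⟩, ?_, ?_⟩
    · intro e he
      exact absurd he (Finset.notMem_empty e)
    · intro e he
      exact absurd he (Finset.notMem_empty e)
    · intro e he
      exact absurd he (Finset.notMem_empty e)
    · unfold pot
      simp
  | succ t ih =>
    push_cast at ht
    obtain ⟨M, h1, h2, h3, h4⟩ := ih (by linarith)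
    have hU : ((used Z M).card : ℝ) ≤ γ / 4 * n := by
      have h5 := used_card Z M
      have h6 : ((used Z M).card : ℝ) ≤ (Z.card : ℝ) + 2 * (M.card : ℝ) := by exact_mod_cast h5
      rw [h1] at h6
      nlinarith
    obtain ⟨M', g1, g2, g3, g4⟩ := step E Z M γ hγ hn hE hE' hU h2 h3
    refine ⟨M', by rw [g1, h1], g2, g3, g4.trans ?_⟩
    rw [pow_succ, ← mul_assoc]
    exact mul_le_mul_of_nonneg_right h4 (by linarith)

theorem sel : S_SEL := by
  intro γ α hγ hγ1 hα hα2
  -- threshold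
  have hc : (0 : ℝ) < γ * α / 32 := by positivity
  have hev1 : ∀ᶠ n : ℕ in Filter.atTop, Real.log (n : ℝ) ≤ γ * α / 32 * n := by
    have h1 := (Real.isLittleO_log_id_atTop.bound hc)
    have h2 := tendsto_natCast_atTop_atTop (R := ℝ)
    filter_upwards [h2.eventually h1] with n hn
    have h3 : ‖id (n : ℝ)‖ = n := by
      simp
    rw [h3] at hn
    exact (le_abs_self _).trans hn
  have hev2 : ∀ᶠ n : ℕ in Filter.atTop, 2 / α ≤ (n : ℝ) :=
    (tendsto_natCast_atTop_atTop (R := ℝ)).eventually (Filter.eventually_ge_atTop _)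
  obtain ⟨N, hN⟩ := Filter.eventually_atTop.1 (hev1.and (hev2.and (Filter.eventually_ge_atTop 1)))
  refine ⟨N, ?_⟩
  intro n I _ E Z hn hI hE hE' hZ
  obtain ⟨hlog, h2α, hn1⟩ := hN n hn
  have hn' : (0 : ℝ) < n := by exact_mod_cast hn1
  rcases isEmpty_or_nonempty I with hemp | hne
  · refine ⟨∅, ⟨?_, ?_⟩, ?_, ?_, ?_⟩
    · intro e he
      exact absurd he (Finset.notMem_empty e)
    · intro e he
      exact absurd he (Finset.notMem_empty e)
    · intro e he
      exact absurd he (Finset.notMem_empty e)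
    · rw [Finset.card_empty, Nat.cast_zero]
      positivity
    · intro i
      exact (hemp.false i).elim
  · have hαn : (0 : ℝ) ≤ α * n := by positivity
    have hk := Nat.floor_le hαn
    have hk2 := Nat.lt_floor_add_one (α * n)
    set k := ⌊α * (n : ℝ)⌋₊ with hkdef
    obtain ⟨M, h1, h2, h3, h4⟩ := build E Z γ α hγ hγ1 hα2 hn1 hE hE' hZ k hk
    refine ⟨M, h2, h3, by rw [h1]; exact hk, ?_⟩
    intro i
    have h5 : (1 / 2 : ℝ) ^ (M ∩ E i).card ≤ pot E M := by
      unfold pot
      exact Finset.single_le_sum (f := fun i => (1 / 2 : ℝ) ^ (M ∩ E i).card)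
        (fun j _ => by positivity) (Finset.mem_univ i)
    have h6 : (1 - γ / 4) ^ k ≤ Real.exp (-(γ / 4) * k) := by
      have h7 : 1 - γ / 4 ≤ Real.exp (-(γ / 4)) := Real.one_sub_le_exp_neg _
      calc (1 - γ / 4) ^ k ≤ (Real.exp (-(γ / 4))) ^ k :=
            pow_le_pow_left₀ (by linarith) h7 k
        _ = Real.exp (-(γ / 4) * k) := by
            rw [← Real.exp_nat_mul]
            congr 1
            ring
    have h8 : (Fintype.card I : ℝ) ≤ (n : ℝ) ^ 2 := by exact_mod_cast hI
    have h9 : (n : ℝ) ^ 2 = Real.exp (2 * Real.log n) := by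
      rw [two_mul, Real.exp_add, Real.exp_log hn']
      ring
    have h10 : Real.exp (-((M ∩ E i).card : ℝ)) ≤ (1 / 2 : ℝ) ^ (M ∩ E i).card := by
      have h11 : Real.exp (-1) ≤ 1 / 2 := by
        rw [Real.exp_neg, one_div]
        apply inv_anti₀ (by norm_num)
        have := Real.add_one_le_exp (1 : ℝ)
        linarith
      calc Real.exp (-((M ∩ E i).card : ℝ)) = (Real.exp (-1)) ^ (M ∩ E i).card := by
            rw [← Real.exp_nat_mul]
            congr 1
            ring
        _ ≤ (1 / 2 : ℝ) ^ (M ∩ E i).card :=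
            pow_le_pow_left₀ (Real.exp_pos _).le h11 _
    have h12 : Real.exp (-((M ∩ E i).card : ℝ)) ≤
        Real.exp (2 * Real.log n + -(γ / 4) * k) := by
      rw [Real.exp_add, ← h9]
      refine h10.trans (h5.trans (h4.trans ?_))
      exact mul_le_mul h8 h6 (pow_nonneg (by linarith) _) (by positivity)
    have h13 := Real.exp_le_exp.1 h12
    have h14 : (2 : ℝ) ≤ α * n := by
      rw [div_le_iff₀ hα] at h2α
      linarith
    have h15 : (1 : ℝ) ≤ α * n / 2 := by linarith
    have h16 : α * n / 2 ≤ (k : ℝ) := by linarith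
    have h17 : γ / 4 * (α * n / 2) ≤ γ / 4 * k := by
      apply mul_le_mul_of_nonneg_left h16
      positivity
    nlinarith

end Pool.Agent.W370.DH
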